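import Pool.Agent.Lib.MP_d1f823_co.Bridge

namespace Pool.Agent.Results.MP_d1f823_co.NotGenerated

open Pool.Agent.Lib.MP_d1f823_co

/-- For every `n ≥ 3` and every `k` with `n(n-3) ≤ 2(k+1)` (and `k ≥ 2` if `n = 3`), the
independence complex of `KG(n,k)` has a homogeneous integral cycle whose reduced homology class
is not in the subgroup generated by the classes of cycles supported in a single cross-polytopal
subcomplex.  The linear order on the vertices only fixes the orientation of the simplices. -/
theorem result (n k : ℕ) (hn : 3 ≤ n) (h3 : n = 3 → 2 ≤ k) (hk : n * (n - 3) ≤ 2 * (k + 1))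
    [LinearOrder (Vtx n k)] : NotCrossGenerated (kneser n k) := by
  obtain ⟨N, h1, h2⟩ := wit_all n k hn h3 hk
  exact h2.final h1

end Pool.Agent.Results.MP_d1f823_co.NotGenerated
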